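import Pool.Agent.H809_TA.PlaneArray
import Pool.Agent.H809_TA.Defs

/-!
For every prime power `q > 2` there is a `((q+1) x q^2, q(q+1))`-triple array.
-/

set_option autoImplicit false

namespace Pool.Agent.Results.MP_394e0d_co.PlaneTripleArrays

open Pool.Agent.H809_TA

/-- For every prime power `q > 2` there is a `((q+1) x q^2, q(q+1))`-triple array. -/
theorem result : ∀ q : ℕ, IsPrimePow q → 2 < q →
    ∃ T : Fin (q + 1) → Fin (q ^ 2) → Fin (q * (q + 1)), IsTripleArray T :=
  fun q hq h2 => exists_plane_array q hq h2

end Pool.Agent.Results.MP_394e0d_co.PlaneTripleArrays
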